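import Pool.Agent.Helper32.CL.St3

/-!
Module SM of project CL (MP_b2fa09_gt): small energy.
-/

set_option autoImplicit false

namespace Helper30.CL

open Helper32.CL Helper35.PI Helper35.PI2 Pool.Agent.Helper35.CL
open scoped ContDiff Manifold Topology ENNReal
open MeasureTheory Set Filter

private theorem smAdd3 {M : Type} [MeasurableSpace M] (μ : Measure M) (u v w : M → ℝ)
    (hu : Integrable u μ) (hv : Integrable v μ) (hw : Integrable w μ) (a b : ℝ) :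
    ∫ q, (u q - a * v q + b * w q) ∂μ
      = (∫ q, u q ∂μ) - a * (∫ q, v q ∂μ) + b * ∫ q, w q ∂μ := by
  have h1 := integral_add (μ := μ) (f := fun q => u q - a * v q) (g := fun q => b * w q)
    (hu.sub (hv.const_mul a)) (hw.const_mul b)
  have h2 := integral_sub (μ := μ) (f := u) (g := fun q => a * v q) hu (hv.const_mul a)
  rw [h1, h2, integral_const_mul, integral_const_mul]

/-- Cauchy-Schwarz inequality for the integral of a geometric mean -/
private theorem smCS {M : Type} [MeasurableSpace M] (μ : Measure M) (f g : M → ℝ)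
    (hf : ∀ q, 0 ≤ f q) (hg : ∀ q, 0 ≤ g q) (hfi : Integrable f μ) (hgi : Integrable g μ)
    (hfg : Integrable (fun q => Real.sqrt (f q * g q)) μ) :
    (∫ q, Real.sqrt (f q * g q) ∂μ) ^ 2 ≤ (∫ q, f q ∂μ) * ∫ q, g q ∂μ := by
  have key : ∀ x : ℝ, 0 ≤ (∫ q, f q ∂μ) * (x * x) + (-2 * ∫ q, Real.sqrt (f q * g q) ∂μ) * x
      + ∫ q, g q ∂μ := by
    intro x
    have h1 := smAdd3 μ g (fun q => Real.sqrt (f q * g q)) f hgi hfg hfi (2 * x) (x * x)
    have h5 : 0 ≤ ∫ q, (g q - 2 * x * Real.sqrt (f q * g q) + x * x * f q) ∂μ := ?_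
    · rw [h1] at h5
      linarith
    refine integral_nonneg fun q => ?_
    have h2 : Real.sqrt (f q * g q) = Real.sqrt (f q) * Real.sqrt (g q) :=
      Real.sqrt_mul (hf q) _
    have h3 := Real.sq_sqrt (hf q)
    have h4 := Real.sq_sqrt (hg q)
    show 0 ≤ g q - 2 * x * Real.sqrt (f q * g q) + x * x * f q
    rw [h2]
    nlinarith [sq_nonneg (Real.sqrt (f q) * x - Real.sqrt (g q))]
  have h := discrim_le_zero key
  unfold discrim at h
  nlinarith [h]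

private theorem smCont {M : Type} [TopologicalSpace M] {V : Type} [TopologicalSpace V]
    {g : M → ℝ → V} (hg : CST g) {t : ℝ} (ht : t < 0) : Continuous (fun q => g q t) := by
  have h1 : Continuous (fun q : M => (q, t)) := by fun_prop
  have h2 : ContinuousOn (fun q : M => g q t) univ :=
    ContinuousOn.comp (g := fun z : M × ℝ => g z.1 z.2) hg h1.continuousOn
      (fun q _ => ⟨mem_univ _, ht⟩)
  exact continuousOn_univ.mp h2

theorem hSM (hMU : StMU) (hTD : StTD) (hFV : StFV) (hMS : StMS) (hSG : StSG) (hMA : StMA)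
    (hML : StML) (hCN : StCN) : Helper32.CL.StSM := by
  intro N M _ _ _ _ _ _ _ _ F c χ hS
  have hF := hS.mcf
  obtain ⟨hC1, hC2, hC3, -⟩ := hCN N M F hF
  obtain ⟨s, -, hmu⟩ := hMU 2 N M F c χ hS
  have hsm : (cφ (fun p : ℝ × ℝ × ℝ × ℝ => 2 * p.1 - p.2.1)).Smooth := by
    refine ⟨?_, contDiff_const, contDiff_const, contDiff_const⟩
    show ContDiff ℝ ∞ (fun p : ℝ × ℝ × ℝ × ℝ => 2 * p.1 - p.2.1)
    fun_prop
  obtain ⟨hm1, -, -, -, hm5, hm6, hm7, -⟩ :=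
    hML 2 N M F hF 0 0 (cφ (fun p : ℝ × ℝ × ℝ × ℝ => 2 * p.1 - p.2.1)) hsm
  have hθ : CST (fun q t => thF 2 F q t) := hm5
  have hθ' : CST (fun q t => deriv (fun s => thF 2 F q s) t) := hm6
  have hθd : ∀ q, ∀ t < 0, HasDerivAt (fun s => thF 2 F q s)
      (deriv (fun s => thF 2 F q s) t) t := hm7
  refine ⟨fun t => ∫ q, (deriv (fun s => thF 2 F q s) t
    - ‖HH (n := 2) F q t‖ ^ 2 * thF 2 F q t) ∂muM 2 F c χ t, ?_⟩
  intro t ht
  obtain ⟨-, -, hint⟩ := hmu t ht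
  obtain ⟨hT1, hTp⟩ := hSG N M F hF t ht
  refine ⟨integral_nonneg fun q => (hTp q).1,
    (hTD 2 N M F c χ hS).2 (fun q t => thF 2 F q t) (fun q t => deriv (fun s => thF 2 F q s) t)
      hθ hθ' hθd t ht, ?_⟩
  intro ha
  -- continuity at the fixed time
  have cθ : Continuous (fun q => thF 2 F q t) := smCont hθ ht
  have cθ' : Continuous (fun q => deriv (fun s => thF 2 F q s) t) := smCont hθ' ht
  have cH : Continuous (fun q => HH (n := 2) F q t) := smCont hC2 ht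
  obtain ⟨hV1, hV2, -⟩ := hMA 2 N M F hF (1 / 2) t ht
  obtain ⟨cV, hV0⟩ := hFV 2 N M F c χ hS t ht (VF 2 (1 / 2) F t) hV1
  have cg3 : Continuous (fun q => g3F F q t) := by
    unfold g3F
    exact ((cH.norm.pow 2).mul cθ).sub (cθ'.sub cV)
  have hV0' : ∫ q, dvg (n := 2) F (VF 2 (1 / 2) F t) q t ∂muM 2 F c χ t = 0 := by
    rw [← hV0]
    refine integral_congr_ae (Filter.Eventually.of_forall fun q => ?_)
    show dvg (n := 2) F (VF 2 (1 / 2) F t) q t = dvg (n := 2) F (VF 2 (1 / 2) F t) q t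
      + inner ℝ (HH (n := 2) F q t) (VF 2 (1 / 2) F t q)
    rw [hV2 q, add_zero]
  have ig3 := (hint _ cg3).1
  have iV := (hint _ cV).1
  have iθ := (hint _ cθ).1
  have hEq : ∫ q, (deriv (fun s => thF 2 F q s) t
      - ‖HH (n := 2) F q t‖ ^ 2 * thF 2 F q t) ∂muM 2 F c χ t
      = -∫ q, g3F F q t ∂muM 2 F c χ t := by
    have h1 : ∫ q, (deriv (fun s => thF 2 F q s) t
        - ‖HH (n := 2) F q t‖ ^ 2 * thF 2 F q t) ∂muM 2 F c χ t
        = ∫ q, (dvg (n := 2) F (VF 2 (1 / 2) F t) q t - g3F F q t) ∂muM 2 F c χ t := by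
      refine integral_congr_ae (Filter.Eventually.of_forall fun q => ?_)
      show deriv (fun s => thF 2 F q s) t - ‖HH (n := 2) F q t‖ ^ 2 * thF 2 F q t
        = dvg (n := 2) F (VF 2 (1 / 2) F t) q t - g3F F q t
      unfold g3F
      ring
    rw [h1, integral_sub iV ig3, hV0', zero_sub]
  show ∫ q, (deriv (fun s => thF 2 F q s) t
      - ‖HH (n := 2) F q t‖ ^ 2 * thF 2 F q t) ∂muM 2 F c χ t ≤ 0
  rw [hEq]
  -- the functions of the estimate
  have cB : Continuous (fun q => ‖HH (n := 2) F q t‖ ^ 2 * thF 2 F q t) :=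
    (cH.norm.pow 2).mul cθ
  have cS : Continuous (fun q => thF 2 F q t ^ 2) := cθ.pow 2
  have cP : Continuous (fun q => g3F F q t
      - 1 / 2 * (‖HH (n := 2) F q t‖ ^ 2 * thF 2 F q t) + 3 * thF 2 F q t ^ 2) :=
    (cg3.sub (continuous_const.mul cB)).add (continuous_const.mul cS)
  have cR : Continuous (fun q => 300 * (g3F F q t
      - 1 / 2 * (‖HH (n := 2) F q t‖ ^ 2 * thF 2 F q t) + 3 * thF 2 F q t ^ 2)) :=
    continuous_const.mul cP
  have hP0 : ∀ q, 0 ≤ 300 * (g3F F q t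
      - 1 / 2 * (‖HH (n := 2) F q t‖ ^ 2 * thF 2 F q t) + 3 * thF 2 F q t ^ 2) := by
    intro q
    have := (hTp q).2.1
    linarith
  have hB0 : ∀ q, 0 ≤ ‖HH (n := 2) F q t‖ ^ 2 * thF 2 F q t := fun q =>
    mul_nonneg (sq_nonneg _) (hTp q).1
  have ck : Continuous (fun q => Real.sqrt (thF 2 F q t * (300 * (g3F F q t
      - 1 / 2 * (‖HH (n := 2) F q t‖ ^ 2 * thF 2 F q t) + 3 * thF 2 F q t ^ 2)))) :=
    Real.continuous_sqrt.comp (cθ.mul cR)
  have cj : Continuous (fun q => Real.sqrt (thF 2 F q t *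
      (‖HH (n := 2) F q t‖ ^ 2 * thF 2 F q t))) :=
    Real.continuous_sqrt.comp (cθ.mul cB)
  have hj : ∀ q, Real.sqrt (thF 2 F q t * (‖HH (n := 2) F q t‖ ^ 2 * thF 2 F q t))
      = ‖HH (n := 2) F q t‖ * thF 2 F q t := by
    intro q
    rw [show thF 2 F q t * (‖HH (n := 2) F q t‖ ^ 2 * thF 2 F q t)
      = (‖HH (n := 2) F q t‖ * thF 2 F q t) ^ 2 by ring]
    exact Real.sqrt_sq (mul_nonneg (norm_nonneg _) (hTp q).1)
  have hMSt := hMS N M F c χ hS t ht (fun q => thF 2 F q t)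
    (fun q => Real.sqrt (thF 2 F q t * (300 * (g3F F q t
      - 1 / 2 * (‖HH (n := 2) F q t‖ ^ 2 * thF 2 F q t) + 3 * thF 2 F q t ^ 2))))
    hT1 ck (fun q => (hTp q).1) (by
      intro q
      refine Real.le_sqrt_of_sq_le ?_
      have := (hTp q).2.2
      calc ‖gdM 2 F t (fun q => thF 2 F q t) q‖ ^ 2 ≤ 300 * (thF 2 F q t * (g3F F q t
            - 1 / 2 * (‖HH (n := 2) F q t‖ ^ 2 * thF 2 F q t) + 3 * thF 2 F q t ^ 2)) := this
        _ = _ := by ring)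
  have cs1 := smCS (muM 2 F c χ t) (fun q => thF 2 F q t) (fun q => 300 * (g3F F q t
      - 1 / 2 * (‖HH (n := 2) F q t‖ ^ 2 * thF 2 F q t) + 3 * thF 2 F q t ^ 2))
    (fun q => (hTp q).1) hP0 iθ (hint _ cR).1 (hint _ ck).1
  have cs2 := smCS (muM 2 F c χ t) (fun q => thF 2 F q t)
    (fun q => ‖HH (n := 2) F q t‖ ^ 2 * thF 2 F q t)
    (fun q => (hTp q).1) hB0 iθ (hint _ cB).1 (hint _ cj).1
  have hsum : ∫ q, (Real.sqrt (thF 2 F q t * (300 * (g3F F q t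
      - 1 / 2 * (‖HH (n := 2) F q t‖ ^ 2 * thF 2 F q t) + 3 * thF 2 F q t ^ 2)))
      + ‖HH (n := 2) F q t‖ * thF 2 F q t) ∂muM 2 F c χ t
      = (∫ q, Real.sqrt (thF 2 F q t * (300 * (g3F F q t
      - 1 / 2 * (‖HH (n := 2) F q t‖ ^ 2 * thF 2 F q t) + 3 * thF 2 F q t ^ 2)))
        ∂muM 2 F c χ t)
      + ∫ q, Real.sqrt (thF 2 F q t * (‖HH (n := 2) F q t‖ ^ 2 * thF 2 F q t))
        ∂muM 2 F c χ t := by
    rw [← integral_add (hint _ ck).1 (hint _ cj).1]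
    refine integral_congr_ae (Filter.Eventually.of_forall fun q => ?_)
    show _ + _ = _ + _
    rw [hj q]
  have hR : ∫ q, 300 * (g3F F q t
      - 1 / 2 * (‖HH (n := 2) F q t‖ ^ 2 * thF 2 F q t) + 3 * thF 2 F q t ^ 2)
        ∂muM 2 F c χ t
      = 300 * ((∫ q, g3F F q t ∂muM 2 F c χ t)
        - 1 / 2 * (∫ q, ‖HH (n := 2) F q t‖ ^ 2 * thF 2 F q t ∂muM 2 F c χ t)
        + 3 * ∫ q, thF 2 F q t ^ 2 ∂muM 2 F c χ t) := by
    rw [integral_const_mul]
    congr 1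
    exact smAdd3 (muM 2 F c χ t) _ _ _ ig3 (hint _ cB).1 (hint _ cS).1 _ _
  have hR0 : 0 ≤ ∫ q, 300 * (g3F F q t
      - 1 / 2 * (‖HH (n := 2) F q t‖ ^ 2 * thF 2 F q t) + 3 * thF 2 F q t ^ 2)
        ∂muM 2 F c χ t := integral_nonneg hP0
  have hBn : 0 ≤ ∫ q, ‖HH (n := 2) F q t‖ ^ 2 * thF 2 F q t ∂muM 2 F c χ t :=
    integral_nonneg hB0
  have hSn : 0 ≤ ∫ q, thF 2 F q t ^ 2 ∂muM 2 F c χ t :=
    integral_nonneg fun q => sq_nonneg _
  have hAn : 0 ≤ ∫ q, thF 2 F q t ∂muM 2 F c χ t := integral_nonneg fun q => (hTp q).1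
  rw [hsum] at hMSt
  rw [hR] at cs1 hR0
  revert ha hMSt cs1 cs2 hR0 hBn hSn hAn
  generalize (∫ q, thF 2 F q t ∂muM 2 F c χ t) = a
  generalize (∫ q, thF 2 F q t ^ 2 ∂muM 2 F c χ t) = S
  generalize (∫ q, ‖HH (n := 2) F q t‖ ^ 2 * thF 2 F q t ∂muM 2 F c χ t) = B
  generalize (∫ q, g3F F q t ∂muM 2 F c χ t) = G
  generalize (∫ q, Real.sqrt (thF 2 F q t * (300 * (g3F F q t
      - 1 / 2 * (‖HH (n := 2) F q t‖ ^ 2 * thF 2 F q t) + 3 * thF 2 F q t ^ 2)))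
        ∂muM 2 F c χ t) = K
  generalize (∫ q, Real.sqrt (thF 2 F q t * (‖HH (n := 2) F q t‖ ^ 2 * thF 2 F q t))
        ∂muM 2 F c χ t) = J
  intro ha hMSt cs1 cs2 hR0 hBn hSn hAn
  have h1 : (K + J) ^ 2 ≤ 2 * K ^ 2 + 2 * J ^ 2 := by nlinarith [sq_nonneg (K - J)]
  have h2 : S ≤ 1200 * (a * G) + 3600 * (a * S) := by
    have h3 : 0 ≤ a * B := mul_nonneg hAn hBn
    nlinarith
  have h4 : 3600 * (a * S) ≤ S / 2 := by nlinarith [mul_le_mul_of_nonneg_right ha hSn]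
  rcases hAn.lt_or_eq with hpos | hzero
  · have h5 : 0 ≤ a * G := by linarith
    have h6 : 0 ≤ G := by
      by_contra hneg
      rw [not_le] at hneg
      have := mul_neg_of_pos_of_neg hpos hneg
      linarith
    linarith
  · have h7 : S ≤ 0 := by
      rw [← hzero] at h2
      linarith
    have h8 : S = 0 := le_antisymm h7 hSn
    rw [h8] at hR0
    linarith

end Helper30.CL
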